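import Mathlib
import Pool.Agent.H50.Torus

namespace Pool.Agent.Results.MP_9b3cbe_gt.E8Arises

/-- In an R-algebra A with a submodule S and elements t, w: S has an R-basis b with
b_i b_j w = G_ij t for all i, j, that is, the form defined by x y w = phi(x,y) t on S
has Gram matrix G in some basis. -/
def HasGram {R A I : Type} [CommRing R] [Ring A] [Algebra R A] (S : Submodule R A) (t w : A)
    (G : Matrix I I R) : Prop :=
  ∃ b : Module.Basis I R S, ∀ i j, (b i).1 * (b j).1 * w = G i j • t

/-- Some w in the submodule T gives a form on S with Gram matrix G in some basis. -/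
def Realizes {R A I : Type} [CommRing R] [Ring A] [Algebra R A] (S T : Submodule R A) (t : A)
    (G : Matrix I I R) : Prop :=
  ∃ w ∈ T, HasGram S t w G

/-- There is w of degree d in the exterior algebra of M whose form on the degree 2 part,
with respect to t, has Gram matrix G in some basis. -/
def ArisesIn (R M : Type) {I : Type} [CommRing R] [AddCommGroup M] [Module R M] (d : ℕ)
    (t : ExteriorAlgebra R M) (G : Matrix I I R) : Prop :=
  Realizes (⋀[R]^2 M) (⋀[R]^d M) t G

/-- The exterior product v_1 v_2 ... v_n. -/
noncomputable def wedge (R M : Type) [CommRing R] [AddCommGroup M] [Module R M] (n : ℕ)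
    (v : Fin n → M) : ExteriorAlgebra R M :=
  ExteriorAlgebra.ιMulti R n v

/-- The generator e_1 e_2 ... e_n of the top degree part of the exterior algebra of R^n. -/
noncomputable def top (R : Type) [CommRing R] (n : ℕ) : ExteriorAlgebra R (Fin n → R) :=
  wedge R (Fin n → R) n (fun i : Fin n => Pi.single i 1)

/-- The form with Gram matrix G arises for n. -/
def Arises (R : Type) [CommRing R] (n : ℕ) {I : Type} (G : Matrix I I R) : Prop :=
  ArisesIn R (Fin n → R) (n - 4) (top R n) G

/-- Index set of size 28 for the form 10H + E8. -/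
abbrev Idx : Type := (Fin 2 × Fin 10) ⊕ Fin 8

/-- Gram matrix of the hyperbolic plane. -/
def hyp : Matrix (Fin 2) (Fin 2) ℤ := fun i j => if i = j then 0 else 1

/-- Gram matrix of 10H + E8: ten hyperbolic planes and the E8 Cartan matrix. -/
def gram : Matrix Idx Idx ℤ :=
  Matrix.fromBlocks (Matrix.blockDiagonal fun _ : Fin 10 => hyp) 0 0 CartanMatrix.E₈

theorem result : Arises ℤ 8 gram := by
  have h : gram = Pool.Agent.H50.Torus.gram := by
    unfold gram Pool.Agent.H50.Torus.gram
    congr 2
    funext _
    ext i j
    fin_cases i <;> fin_cases j <;> rfl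
  rw [h]
  exact Pool.Agent.H50.Torus.main

end Pool.Agent.Results.MP_9b3cbe_gt.E8Arises
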